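import Pool.Agent.H408Z.NUH.Trans

/-!
# A transitive non-uniformly hyperbolic endomorphism that is not stably ergodic

Let `H(x, y) = (x + u(x, y), y)` with `u(x, y) = sin³(πx) sin(πx + 2πy) / 100`, let
`E(x, y) = (x, 4y)` and `f = E ∘ H⁻¹` on the two-torus. Since `u(x, y + 1/2) = -u(x, y)`, the map
`f` preserves Lebesgue measure. Its vertical exponent is `log 4`. Its horizontal exponent is the
Birkhoff limit of a function whose integral over any invariant set of positive measure is
negative (an entropy inequality), so it is negative almost everywhere. Suitable backward branches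
expand every horizontal interval until it covers almost all of a horizontal circle, which gives
transitivity. Replacing `sin²(πx)` by `sin²(πx) - sin²(πθ)` in `u` gives smooth maps close to `f`
with two totally invariant circles, and these are not ergodic.
-/

open scoped ContDiff

namespace Pool.Agent.Results.MP_9eaa6a_an.ANotStablyErgodic

open Pool.Agent.H408Z.NUH

/-- There is a smooth, transitive, non-uniformly hyperbolic area preserving endomorphism of the
two-torus that is not stably ergodic. -/
theorem result : ∃ f : Endo, ContDiff ℝ ∞ f.lift ∧ f.Transitive ∧ f.IsNUH ∧ ¬ f.StablyErgodic := by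
  refine ⟨endo 0, contDiff_FF 0, transitive, isNUH, ?_⟩
  rintro ⟨ε, hε, h⟩
  obtain ⟨θ, h1, h2⟩ := exists_close hε
  exact h2 (h (endo θ) h1 ((contDiff_FF θ).of_le (by norm_cast)))

end Pool.Agent.Results.MP_9eaa6a_an.ANotStablyErgodic
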